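import Pool.Agent.Lib.FS72.Dom

open AlgebraicGeometry CategoryTheory Pool.Agent.Lib.MP_7fcda1_ag

universe u

namespace Pool.Agent.Results.MP_7fcda1_ag.Dominated

/-- Let `X` be a normal projective globally F-regular variety over an algebraically closed field of
characteristic `p > 0`. Every projective variety `Y`, not a point, that receives a dominant rational
map from `X` is rationally chain connected. -/
theorem result {k : Type u} [Field k] [IsAlgClosed k] (p : ℕ) [Fact p.Prime] [CharP k p]
    {X Y : Scheme.{u}} [IsIntegral X] [IsLocallyNoetherian X] [IsIntegral Y] [Nontrivial Y]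
    (s : X ⟶ Spec (.of k)) (t : Y ⟶ Spec (.of k)) (hp : IsProjective s)
    (hn : ∀ x : X, IsIntegrallyClosed (X.presheaf.stalk x)) (hG : IsGFR X p) (hq : IsProjective t)
    (f : X.RationalMap Y) [f.IsDominant] (hf : f.compHom t = s.toRationalMap)
    (x y : Y) (hx : IsClosed {x}) (hy : IsClosed {y}) :
    ∃ S : Set Y, S.Finite ∧ (∀ c ∈ S, IsRationalCurve t c) ∧ _root_.IsConnected (closure S) ∧
      x ∈ closure S ∧ y ∈ closure S := by
  have h := FS.main p s t hp hn hG hq f hf
  by_cases hxy : x = y
  · subst hxy
    have := FS.jacobson hq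
    obtain ⟨z, hz, hz'⟩ : ∃ z : Y, IsClosed {z} ∧ x ≠ z := by
      by_contra hc
      push Not at hc
      obtain ⟨w, hw⟩ := exists_ne x
      have h1 : closure (closedPoints Y) ⊆ {x} :=
        closure_minimal (fun z hz => (hc z hz).symm) hx
      rw [closure_closedPoints] at h1
      exact hw (h1 trivial)
    obtain ⟨S, h1, h2, h3, h4, -⟩ := h x z hx hz hz'
    exact ⟨S, h1, h2, h3, h4, h4⟩
  · exact h x y hx hy hxy

end Pool.Agent.Results.MP_7fcda1_ag.Dominated
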